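import Pool.Agent.Lib.MP_186633_lc.QW

/-!
# A Borel group on the reals which is aleph-omega-free but not free (MP_186633_lc)

The statement uses the definitions of `Pool.Agent.Lib.MP_186633_lc.Statement` (groups, free groups,
Borel sets, cardinality, first order over a structure `(M, E)` for set theory) and the definition
of a model of ZFC in `Pool.Agent.Lib.MP_9708fd_lc.FStmt`.

Outline of the proof.

* (Forcing.) A forcing notion with the ccc-like properties of Shelah's oracle-type constructions
  adds reals and a relation `R(x, y)` between reals: `x` and `y` are branches through a
  recursive tree and `(x n, y n) ∈ e` for all large `n`. It forces: (F1) every set `Z` of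
  reals with `|Z| < ℵ_ω` has a well-order in which every `z ∈ Z` has only countably many smaller
  neighbours in `Z`; (F2) for every ternary function `F` on the reals there are a set `Z` closed
  under `F` and `b ∉ Z` with uncountably many `a ∈ Z` such that `R(a, b)`.
* (Group theory.) The group has generators `a(x, k, s)`, `b(s, k, y)` for reals `x, y`, and
  `t(e, k)` for the edges `e = (x, y)` of `R`, with the relations
  `t(e, k + 1)² = t(e, k) a(x, k, y|k) b(x|k, k, y)`. By (F1) small subgroups are free, by (F2) the
  group is not free.
* (Coding.) The elements are coded by reals, via the homomorphisms to the countable truncated groups;
  the set of codes is Borel, and by the Schroeder-Bernstein argument the group is moved to the set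
  of all functions from `ω` to `ω`.

The second and third parts are carried out inside a well-founded generic model `(M, E)`.
-/

namespace Pool.Agent.Results.MP_186633_lc.ConsistentBadGroup

/-- **It is consistent with ZFC that there is a Borel group on the reals which is `ℵ_ω`-free but not
free.** There is a model `(M, E)` of ZFC in which there is a group whose underlying set is the set of
all functions from `ω` to `ω`, with Borel multiplication, all of whose subgroups of cardinality less
than `ℵ_ω` are free groups, and which is not a free group. -/
theorem result : ∃ (M : Type 1) (E : M → M → Prop),
    MP9708F.ModelsZFC E ∧ MP186633L.BadGroupIn E :=
  MP186633L.consistent_badGroupIn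

end Pool.Agent.Results.MP_186633_lc.ConsistentBadGroup
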